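import Pool.Agent.Work.MP_03df5c_pi.Odd

/-!
# MP_03df5c_nt: Q1 for one prime and the products of `π` and odd zeta values

Let `k_1, …, k_m ≥ 3` be odd and let `p` be a prime for which all `ζ_p(k_i)` are different from `0`;
this holds for `p = 2` and `p = 3` (proved here with the theorem of von Staudt and Clausen). Suppose
that the polynomial relations over `ℚ` between `ζ(2), ζ(k_1), …, ζ(k_m)` hold for
`ζ_p(2), ζ_p(k_1), …, ζ_p(k_m)`. Then for all products `M_n` of the `ζ(k_i)` the numbers `π ^ n M_n`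
(`n ∈ ℤ`) are linearly independent over the field of algebraic numbers; in particular `ζ(k_i) / π ^ n`
is transcendental for all `n ≠ 0`. If in addition the relations transfer for infinitely many primes,
no product of the `ζ(k_i)` is in `ℚ̄(π)`.

The proof extends the transfer of the relations to relations between `π` and the `ζ(k_i)` with
algebraic coefficients, by an embedding of the algebraic numbers in `ℂ_p`
(`Pool/Agent/Work/MP_03df5c_pi/{Ext,Sigma}.lean`). The definitions are in
`Pool/Agent/Work/MP_03df5c_h91/Defs.lean`.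
-/

namespace Pool.Agent.Results.MP_03df5c_nt.OddProducts

open Pool.Agent.Work.MP_03df5c_h91 Pool.Agent.Work.MP_03df5c_pi

theorem result (m : ℕ) (k : Fin m → ℕ) (hk : ∀ i, 3 ≤ k i ∧ Odd (k i)) (p : ℕ) [Fact p.Prime]
    (hp : p = 2 ∨ p = 3 ∨ ∀ i, zetaP p (k i) ≠ 0)
    (hT : Pool.Agent.Work.MP_03df5c_h91.Transfers (m + 1) (Fin.cons 2 k) p) :
    (∀ e : ℤ → Fin m → ℕ, LinearIndependent (algebraicClosure ℚ ℂ)
      (fun n : ℤ => (Real.pi : ℂ) ^ n * ∏ i, (zetaR (k i) : ℂ) ^ e n i)) ∧
    ({q : ℕ | ∃ _ : Fact q.Prime,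
        Pool.Agent.Work.MP_03df5c_h91.Transfers (m + 1) (Fin.cons 2 k) q}.Infinite →
      ∀ d : Fin m → ℕ, d ≠ 0 → (∏ i, (zetaR (k i) : ℂ) ^ d i) ∉
        IntermediateField.adjoin (algebraicClosure ℚ ℂ) {(Real.pi : ℂ)}) :=
  ⟨linearIndependent_products hk hp hT, fun h d hd => product_not_mem hk hp hT h d hd⟩

end Pool.Agent.Results.MP_03df5c_nt.OddProducts
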