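import Pool.Agent.Work.MP_03df5c_pb.Final5

/-!
# MP_03df5c_nt: Q1 for one prime and the dimension of the odd zeta values over `ℚ(π)`

Let `p` be a prime for which the polynomial relations over `ℚ` between `ζ(2)` and the odd zeta values
`ζ(k_1), …, ζ(k_m)` hold between the `p`-adic zeta values. Let `x ≠ 0` be `π` times an element of
`ℚ[π, ζ(k_1), …, ζ(k_m)]` (for example `x = π`). Then

* (a) the dimension over the field `ℚ(x)` of the span of `1, ζ(k_1), …, ζ(k_m)` is at least the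
  dimension over `ℚ` of the span of `1, ζ_p(k_1), …, ζ_p(k_m)`.

This is combined with lower bounds on the `p`-adic side, all proved here:

* (b) for `p` odd and all odd `k ≤ s` the dimension is at least `c log s` for every
  `c < 1 / (1 + log 2)` and large `s`;
* (c) for the index `3` alone and `p = 2` or `p = 3`: `ζ(3)` is not in `ℚ(x)`; for the index `5`
  alone and `p = 2`: `ζ(5)` is not in `ℚ(x)`;
* (d) for `p` odd and single indices `k`: at least `c √(s / log s)` of the odd `k ≤ s` have `ζ(k)`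
  not in `ℚ(x)`.

The definitions `zetaR`, `zetaP`, `Transfers` are in `Pool/Agent/Work/MP_03df5c_h91/Defs.lean`.
-/

namespace Pool.Agent.Results.MP_03df5c_nt.OddZetaDimension

open Pool.Agent.Work.MP_03df5c_h91

/-- `x` is a non-zero element of `π ℚ[π, A]`. -/
def PiMultiple (A : Set ℝ) (x : ℝ) : Prop :=
  x ≠ 0 ∧ ∃ y ∈ Algebra.adjoin ℚ ({Real.pi} ∪ A), x = Real.pi * y

/-- The dimension over `ℚ(x)` of the span of `1` and `A`. -/
noncomputable def dimOver (x : ℝ) (A : Set ℝ) : ℕ :=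
  Module.finrank (IntermediateField.adjoin ℚ {x})
    (Submodule.span (IntermediateField.adjoin ℚ {x}) ({(1 : ℝ)} ∪ A))

/-- The numbers `ζ(k)`, `3 ≤ k ≤ s` odd. -/
def oddZeta (s : ℕ) : Set ℝ := {x | ∃ k, Odd k ∧ 3 ≤ k ∧ k ≤ s ∧ x = zetaR k}

/-- All polynomial relations over `ℚ` between `ζ(2)` and the values `ζ(k)`, `3 ≤ k ≤ s` odd, hold
between the `p`-adic values. -/
def TransfersUpTo (s p : ℕ) [Fact p.Prime] : Prop :=
  ∀ (m : ℕ) (k : Fin m → ℕ), Function.Injective k → (∀ i, 3 ≤ k i ∧ k i ≤ s ∧ Odd (k i)) →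
    Transfers (m + 1) (Fin.cons 2 k) p

theorem result :
    (∀ (p : ℕ) [Fact p.Prime] (m : ℕ) (k : Fin m → ℕ), (∀ i, 3 ≤ k i ∧ Odd (k i)) →
      Transfers (m + 1) (Fin.cons 2 k) p →
      ∀ x, PiMultiple (Set.range (fun i => zetaR (k i))) x →
        Module.finrank ℚ (Submodule.span ℚ ({(1 : ℚ_[p])} ∪ Set.range (fun i => zetaP p (k i)))) ≤
          dimOver x (Set.range (fun i => zetaR (k i)))) ∧
    (∀ (p : ℕ) [Fact p.Prime], p ≠ 2 → ∀ c : ℝ, c < 1 / (1 + Real.log 2) →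
      ∃ s0 : ℕ, ∀ s ≥ s0, TransfersUpTo s p →
        ∀ x, PiMultiple (oddZeta s) x → c * Real.log s ≤ dimOver x (oddZeta s)) ∧
    (∀ (p k : ℕ) [Fact p.Prime], (k = 3 ∧ (p = 2 ∨ p = 3)) ∨ (k = 5 ∧ p = 2) →
      Transfers 2 ![2, k] p →
      ∀ x, PiMultiple {zetaR k} x → zetaR k ∉ IntermediateField.adjoin ℚ {x}) ∧
    (∀ (p : ℕ) [Fact p.Prime], p ≠ 2 → ∃ c : ℝ, 0 < c ∧ ∃ s0 : ℕ, ∀ s ≥ s0,
      (∀ k, Odd k → 3 ≤ k → k ≤ s → Transfers 2 ![2, k] p) →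
      ∃ I : Finset ℕ, c * Real.sqrt (s / Real.log s) ≤ I.card ∧
        ∀ k ∈ I, Odd k ∧ 3 ≤ k ∧ k ≤ s ∧
          ∀ x, PiMultiple {zetaR k} x → zetaR k ∉ IntermediateField.adjoin ℚ {x}) := by
  have hpair : ∀ z : ℝ, ({Real.pi} ∪ {z} : Set ℝ) = {Real.pi, z} := fun z => rfl
  refine ⟨?_, ?_, ?_, ?_⟩
  · rintro p hp m k hk hT x ⟨hx, y, hy, rfl⟩
    exact Pool.Agent.Work.MP_03df5c_pb.f_A p m k hk hT y hy hx
  · intro p hp hp2 c hc
    obtain ⟨s0, h⟩ := Pool.Agent.Work.MP_03df5c_pb.f_FIN3 p hp2 c hc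
    refine ⟨s0, fun s hs hT x => ?_⟩
    rintro ⟨hx, y, hy, rfl⟩
    refine h s hs hT y ?_ hx
    refine Algebra.adjoin_mono ?_ hy
    exact Set.union_subset_union_right _ Set.subset_union_right
  · rintro p k hp (⟨rfl, h23⟩ | ⟨rfl, rfl⟩) hT x ⟨hx, y, hy, rfl⟩
    · refine Pool.Agent.Work.MP_03df5c_pb.f_V8 p h23 hT y ?_ hx
      rw [hpair] at hy
      exact hy
    · refine Pool.Agent.Work.MP_03df5c_pb.f_Y10 hT y ?_ hx
      rw [hpair] at hy
      exact hy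
  · intro p hp hp2
    obtain ⟨c, hc, s0, h⟩ := Pool.Agent.Work.MP_03df5c_pb.f_H7 p hp2
    refine ⟨c, hc, s0, fun s hs hT => ?_⟩
    obtain ⟨I, hI, hcard⟩ := h s hs hT
    refine ⟨I, hcard, fun k hk => ?_⟩
    obtain ⟨h1, h2, h3, h4⟩ := hI k hk
    refine ⟨h1, h2, h3, ?_⟩
    rintro x ⟨hx, y, hy, rfl⟩
    rw [hpair] at hy
    exact h4 y hy hx

end Pool.Agent.Results.MP_03df5c_nt.OddZetaDimension
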