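import Pool.Agent.Work.MP_03df5c_pi.Family
import Pool.Agent.Work.MP_03df5c_all.Assoc
import Pool.Agent.Work.MP_03df5c_all_helper1.Est
import Pool.Agent.Work.MP_03df5c_all_helper38.MZ
import Pool.Agent.Work.MP_03df5c_all_helper38.TR

/-!
# MP_03df5c_nt: Q1 in all depths and the number `π`

Furusho's `p`-adic multiple zeta values `ζ_p(s)` of all depths are the coefficients of the
`p`-adic KZ associator, which is defined through the Frobenius of the `p`-adic KZ equation
(`Pool/Agent/Work/MP_03df5c_all/{Defs,Zeta}.lean`; the first statement says that the definition is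
sound).

Let `s_1, …, s_m` be admissible indices of any depths.

* Let `y_1, …, y_r` be polynomials with rational coefficients in `ζ(s_1), …, ζ(s_m)` and let
  `y_{j,p}` be the same polynomials in `ζ_p(s_1), …, ζ_p(s_m)`. Assume that no non-zero polynomial
  with rational coefficients vanishes at `(y_{1,p}, …, y_{r,p})` for all primes `p` of a set `P`.
  Then the relations over `ℚ` between `ζ(2), y_1, …, y_r` hold for `ζ_p(2), y_{1,p}, …, y_{r,p}` for
  all `p ∈ P` if and only if `π, y_1, …, y_r` are algebraically independent.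
* Suppose that the relations over `ℚ` between `ζ(2), ζ(s_1), …, ζ(s_m)` hold for
  `ζ_p(2), ζ_p(s_1), …, ζ_p(s_m)` for infinitely many primes `p`. Then no relation between
  `π, ζ(s_1), …, ζ(s_m)` with algebraic coefficients has a constant term; if
  `f(ζ(s_1), …, ζ(s_m))` is in `ℚ̄(π)` then `f(ζ_p(s_1), …, ζ_p(s_m)) = f(0, …, 0)` for all these `p`;
  and if `f(ζ_p(s_1), …, ζ_p(s_m)) ≠ f(0, …, 0)` for infinitely many of them then `π` and
  `f(ζ(s_1), …, ζ(s_m))` are algebraically independent.
* For one index `s` the relations transfer for all primes if and only if `ζ(s)` is transcendental.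

The embedding `σ` of the algebraic numbers in `ℂ_p` which carries relations with algebraic
coefficients from `(π, ζ(s))` to `(0, ζ_p(s))` is constructed in
`Pool/Agent/Work/MP_03df5c_pi/{Ext,Sigma}.lean`; `ζ_p(2) = 0` is proved from the Frobenius equation
in `Pool/Agent/Work/MP_03df5c_pi/Even4.lean`.
-/

namespace Pool.Agent.Results.MP_03df5c_nt.PiAllDepths

open MvPolynomial Pool.Agent.Work.MP_03df5c_h91 Pool.Agent.Work.MP_03df5c_all
  Pool.Agent.Work.MP_03df5c_pi

theorem result :
    (∀ (p : ℕ) [Fact p.Prime], ∃! Ψ : List Bool → ℚ_[p], IsAssociator p Ψ) ∧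
    (∀ (m : ℕ) (s : Fin m → MZVIndex),
      (∀ (P : Set ℕ) (r : ℕ) (f : Fin r → MvPolynomial (Fin m) ℚ),
        (∀ g : MvPolynomial (Fin r) ℚ, g ≠ 0 → ∃ p ∈ P, ∃ _ : Fact p.Prime,
          aeval (fun j => aeval (fun i => zetaPadic p (s i)) (f j)) g ≠ 0) →
        ((∀ p ∈ P, ∀ _ : Fact p.Prime, ∀ F : MvPolynomial (Fin (r + 1)) ℚ,
            aeval (Fin.cons (mzv two) (fun j => aeval (fun i => mzv (s i)) (f j)) :
              Fin (r + 1) → ℝ) F = 0 →
            aeval (Fin.cons (zetaPadic p two)
              (fun j => aeval (fun i => zetaPadic p (s i)) (f j)) : Fin (r + 1) → ℚ_[p]) F = 0) ↔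
          AlgebraicIndependent ℚ (Fin.cons Real.pi (fun j => aeval (fun i => mzv (s i)) (f j)) :
            Fin (r + 1) → ℝ))) ∧
      ({p : ℕ | ∃ _ : Fact p.Prime, Pool.Agent.Work.MP_03df5c_all.Transfers
        (Fin.cons two s : Fin (m + 1) → MZVIndex) p}.Infinite →
        (∀ F : MvPolynomial (Fin (m + 1)) (algebraicClosure ℚ ℂ),
          aeval (Fin.cons (Real.pi : ℂ) (fun i => (mzv (s i) : ℂ)) : Fin (m + 1) → ℂ) F = 0 →
            constantCoeff F = 0) ∧
        (∀ f : MvPolynomial (Fin m) ℚ,
          (((aeval (fun i => mzv (s i)) f : ℝ) : ℂ) ∈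
            IntermediateField.adjoin (algebraicClosure ℚ ℂ) {(Real.pi : ℂ)} →
            ∀ (p : ℕ) [Fact p.Prime], Pool.Agent.Work.MP_03df5c_all.Transfers
              (Fin.cons two s : Fin (m + 1) → MZVIndex) p →
                aeval (fun i => zetaPadic p (s i)) f = ((constantCoeff f : ℚ) : ℚ_[p])) ∧
          ({p : ℕ | ∃ _ : Fact p.Prime, Pool.Agent.Work.MP_03df5c_all.Transfers
              (Fin.cons two s : Fin (m + 1) → MZVIndex) p ∧
              aeval (fun i => zetaPadic p (s i)) f ≠
                ((constantCoeff f : ℚ) : ℚ_[p])}.Infinite →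
            AlgebraicIndependent ℚ ![Real.pi, aeval (fun i => mzv (s i)) f])))) ∧
    (∀ s : MZVIndex,
      (∀ (p : ℕ) (_ : Fact p.Prime), Pool.Agent.Work.MP_03df5c_all.Transfers ![s] p) ↔
        Transcendental ℚ (mzv s)) := by
  have hS : Stmt_SMALL := small_of_est (stmt_EST stmt_BLET)
  exact ⟨fun p _ => stmt_UNA p, fun m s => ⟨fun P r f hP => family_iff s P f hP, fun h =>
    ⟨relation_constant s stmt_UNA hS h, fun f => ⟨fun hf p _ hT =>
      mem_adjoin s stmt_UNA hS h f hf p hT, independent s stmt_UNA hS f⟩⟩⟩,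
    fun s => single_iff stmt_UNA hS stmt_TR stmt_MZ s⟩

end Pool.Agent.Results.MP_03df5c_nt.PiAllDepths
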