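import Pool.Agent.Work.MP_03df5c_one.Main

/-!
# MP_03df5c_nt: what Q1 says for one prime and homogeneous relations in depth one

Let `p = 2`, `p = 3`, or any prime with `ζ_p(k) ≠ 0` for the odd `k`, `3 ≤ k ≤ N`. A weighted
homogeneous polynomial in `ζ(2), ζ(3), ζ(5), ζ(7), …` is thin if two different monomials of it have
different exponents of `ζ(2)`; in weight at most `8` every homogeneous polynomial is thin, and so is
every homogeneous polynomial in `ζ(2)` and one more `ζ(k)`. The thin relations of weight at most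
`N` hold `p`-adically if and only if there are none except zero, and in this case the products of
weight `w ≤ N` span a space of dimension at least `⌊(w-1)/2⌋`. All definitions are in
`Pool/Agent/Work/MP_03df5c_one/Defs.lean` and `Pool/Agent/Work/MP_03df5c_h91/Defs.lean`.
-/

namespace Pool.Agent.Results.MP_03df5c_nt.SinglePrime

open MvPolynomial Pool.Agent.Work.MP_03df5c_h91 Pool.Agent.Work.MP_03df5c_one

theorem result (p : ℕ) [Fact p.Prime] (N : ℕ)
    (hp : p = 2 ∨ p = 3 ∨ ∀ i, 1 ≤ i → 2 * i + 1 ≤ N → zetaP p (2 * i + 1) ≠ 0) :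
    (ThinTransfers p N ↔ ∀ w ≤ N, ∀ f : MvPolynomial ℕ ℚ, Thin w f →
      aeval (fun i => zetaR (idx i)) f = 0 → f = 0) ∧
    (ThinTransfers p N → ∀ w ≤ N,
      (((w - 1) / 2 : ℕ) : Cardinal) ≤ Module.rank ℚ (weightSpace w)) ∧
    ∀ w ≤ 8, ∀ f : MvPolynomial ℕ ℚ, IsWeightedHomogeneous idx f w → Thin w f := by
  have hz : ∀ i, 1 ≤ i → 2 * i + 1 ≤ N → zetaP p (2 * i + 1) ≠ 0 := by
    rcases hp with h | h | h
    · exact fun i hi _ => nonzero_of_two_or_three (Or.inl h) hi
    · exact fun i hi _ => nonzero_of_two_or_three (Or.inr h) hi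
    · exact h
  refine ⟨⟨fun ht w hw => eq_zero_of_transfers hz ht w hw, fun h w hw f hf h0 => ?_⟩,
    fun ht w hw => rank_weightSpace w (eq_zero_of_transfers hz ht w hw),
    fun w hw f hf => thin_of_le hw hf⟩
  rw [h w hw f hf h0, map_zero]

end Pool.Agent.Results.MP_03df5c_nt.SinglePrime
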